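import Mathlib
import Pool.Agent.Y849.EH.Hall

set_option autoImplicit false

/-!
# At `t = 1` all elliptic Hall algebra operators are multiplication operators
-/

namespace Pool.Agent.Results.MP_478849_co.HallAtT1

open Pool.Agent.H209R2.EH Pool.Agent.Y849.EH

/-- (1) For a seed the function `f_d^{(1,1)}` has regular coefficients. (2) If the coefficients of
`f_d^{(1,1)}` are regular (no positivity, only the pair `(1,1)`), then for all `a, b ≥ 0` (coprime
or not) the operator `Θ_{a,b}(f_d)` lies in the algebra `Hall`, and acts at `t = 1` as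
multiplication by `f_d^{(a,b)}`. (3) Every operator of `Hall` preserves regularity at `t = 1` and
acts at `t = 1` as multiplication by its value at `1`. -/
theorem result (r : ℕ) (σ τ : ℤˣ) :
    (∀ (d : ℕ) (c : d.Partition → KK), IsSeed r σ τ c → RegularTQ (Theta r σ τ 1 1 c 1)) ∧
    (∀ (d : ℕ) (c : d.Partition → KK),
      (RegularTQ (Theta r σ τ 1 1 c 1) ∨ ∀ μ, RegAt (1 : RatFunc ℚ) (c μ)) →
      ∀ a b : ℕ, Hall r σ τ (Theta r σ τ a b c) ∧
        ∀ g : MvPolynomial ℕ+ (RatFunc ℚ),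
          atT1 (Theta r σ τ a b c (MvPolynomial.map RatFunc.C g)) =
            atT1 (Theta r σ τ a b c 1) * g) ∧
    (∀ A : Module.End KK Sym, Hall r σ τ A → ∀ G : Sym, RegularT1 G →
      RegularT1 (A G) ∧ RegularT1 (A 1) ∧ atT1 (A G) = atT1 (A 1) * atT1 G) := by
  have h1 : RegularT1 (1 : Sym) := (regularT1_iff 1).2 (LR _).one_mem
  refine ⟨fun d c hc => (regularTQ_iff _).2
    (hc 1 1 le_rfl le_rfl (Nat.coprime_one_left 1)).mem, fun d c hc a b => ?_,
    fun A hA G hG => ⟨(hA.at_one G hG).1, (hA.at_one 1 h1).1, (hA.at_one G hG).2⟩⟩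
  have hreg : ∀ μ, RegAt (1 : RatFunc ℚ) (c μ) := by
    rcases hc with hc | hc
    · exact fun μ => V_le_Reg (coeff_regular r σ τ c hc μ)
    · exact hc
  have hA := Hall.theta r σ τ a b c hreg
  refine ⟨hA, fun g => ?_⟩
  obtain ⟨h2, h3⟩ := atT1_C g
  have h4 := (hA.at_one _ h2).2
  rwa [h3] at h4

end Pool.Agent.Results.MP_478849_co.HallAtT1
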